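import Pool.Agent.X286.Sz.Main

/-!
# Points given by abc triples with products of few powers: the count
-/

set_option autoImplicit false

namespace Pool.Agent.X286.Gn

open Finset Pool.Agent.X286.Sz

open Pool.Agent.Results.MP_2ec8a3_nt.FewPowersAllHeights in
/-- points `b` which come from a coprime sum `u + v` of products of `n` powers of integers
`≤ M + N`, and have a size `Z ≤ A (u + v) ^ m N ^ E`, `N ^ κ < Z`, `N ≤ X` -/
theorem dyad {β : Type*} {ι : Type*} [Fintype ι] (τ : ι × (ℕ × ℕ) → β) (n M A m E : ℕ) (hM : 0 < M)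
    (hA : 0 < A) {ε : ℝ} (hε : 0 < ε) :
    ∃ (κ : ℕ) (C : ℝ), 0 < C ∧ ∀ X : ℕ, 1 ≤ X → ∀ Q : Set β,
      (∀ b ∈ Q, ∃ (N Z : ℕ) (k : ι) (u v : ℕ), 0 < N ∧ N ≤ X ∧ N ^ κ < Z ∧ 0 < u ∧ 0 < v ∧
        u.Coprime v ∧ b = τ (k, (u, v)) ∧ Sz.PowerProduct n (M + N) u ∧
        Sz.PowerProduct n (M + N) v ∧ Sz.PowerProduct n (M + N) (u + v) ∧ Z ≤ A * ((u + v) ^ m * N ^ E)) →
      Q.Finite ∧ ((Q.ncard : ℕ) : ℝ) ≤ C * (X : ℝ) ^ ε := by
  classical
  obtain ⟨K, hK⟩ := result n (ε / 2) (by positivity)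
  obtain ⟨C1, hC1, hlog⟩ := log_bound (ε / 2) (by positivity)
  set c := Fintype.card ι with hc
  set C3 : ℕ := A * (M + 2) ^ (K * m) with hC3
  set T : ℕ := ((M + 2) * C3) ^ K with hT
  refine ⟨K * m + E + 1, 1 + c * ((T + 1) * (T + 1)) + c * C1 * ((M : ℝ) + 2) ^ (ε / 2),
    by positivity, fun X hX Q hQ => ?_⟩
  set S : Finset β := ((univ : Finset ι) ×ˢ (range (T + 1) ×ˢ range (T + 1))).image τ ∪
    (range (Nat.log 2 X + 1)).biUnion (fun i => ((univ : Finset ι) ×ˢ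
      (hK (M + 2 ^ (i + 1))).1.toFinset).image τ) with hS
  have hsub : Q ⊆ (S : Set β) := by
    intro b hb
    obtain ⟨N, Z, k, u, v, hNpos, hNX, hbad, hu, hv, huv, hτ, q1, q2, q3, hD⟩ := hQ b hb
    rw [mem_coe, hS, mem_union]
    have hlogN : 2 ^ Nat.log 2 N ≤ N := Nat.pow_log_le_self 2 hNpos.ne'
    have hlogN' : N < 2 ^ (Nat.log 2 N + 1) := Nat.lt_pow_succ_log_self one_lt_two N
    set i := Nat.log 2 N with hi
    have hZ : M + N ≤ M + 2 ^ (i + 1) := by omega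
    have hZ2 : M + 2 ^ (i + 1) ≤ (M + 2) * N := by
      rw [pow_succ]
      nlinarith
    by_cases hc : (M + 2 ^ (i + 1)) ^ K ≤ u + v
    · right
      rw [mem_biUnion]
      refine ⟨i, ?_, ?_⟩
      · rw [mem_range]
        exact Nat.lt_succ_of_le (Nat.log_mono_right hNX)
      · rw [mem_image]
        refine ⟨(k, (u, v)), ?_, hτ.symm⟩
        rw [mem_product]
        refine ⟨mem_univ _, ?_⟩
        rw [Set.Finite.mem_toFinset]
        exact triples_iff.2 ⟨hu, hv, huv, pp_mono hZ q1, pp_mono hZ q2, pp_mono hZ q3, hc⟩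
    · left
      have h1 : u + v ≤ ((M + 2) * N) ^ K := by
        refine (not_le.1 hc).le.trans ?_
        exact Nat.pow_le_pow_left hZ2 K
      have hNC : N < C3 := by
        have h2 : N ^ (K * m + E + 1) < A * ((((M + 2) * N) ^ K) ^ m * N ^ E) := by
          refine hbad.trans_le (hD.trans ?_)
          exact Nat.mul_le_mul_left _ (Nat.mul_le_mul_right _ (Nat.pow_le_pow_left h1 m))
        have h3 : A * ((((M + 2) * N) ^ K) ^ m * N ^ E) = C3 * N ^ (K * m + E) := by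
          rw [hC3, ← pow_mul, mul_pow, pow_add]
          ring
        have h4 : N ^ (K * m + E + 1) = N * N ^ (K * m + E) := by
          rw [← pow_succ']
        rw [h3, h4] at h2
        exact lt_of_mul_lt_mul_right h2 (Nat.zero_le _)
      have h5 : u + v ≤ T := by
        refine h1.trans ?_
        rw [hT]
        exact Nat.pow_le_pow_left (Nat.mul_le_mul_left _ hNC.le) K
      rw [mem_image]
      refine ⟨(k, (u, v)), ?_, hτ.symm⟩
      rw [mem_product, mem_product, mem_range, mem_range]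
      exact ⟨mem_univ _, by simp only; omega, by simp only; omega⟩
  refine ⟨S.finite_toSet.subset hsub, ?_⟩
  have h1 : (Q.ncard : ℝ) ≤ (S.card : ℝ) := by
    have := Set.ncard_le_ncard hsub S.finite_toSet
    rw [Set.ncard_coe_finset] at this
    exact_mod_cast this
  refine h1.trans ?_
  have hX' : (1 : ℝ) ≤ X := by exact_mod_cast hX
  have hXpos : (0 : ℝ) < X := by linarith
  have h2 : (S.card : ℝ) ≤ c * ((T + 1) * (T + 1)) +
      ∑ i ∈ range (Nat.log 2 X + 1), c * (((hK (M + 2 ^ (i + 1))).1.toFinset.card : ℕ) : ℝ) := by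
    have h3 : S.card ≤ c * ((T + 1) * (T + 1)) +
        ∑ i ∈ range (Nat.log 2 X + 1), c * (hK (M + 2 ^ (i + 1))).1.toFinset.card := by
      rw [hS]
      refine (card_union_le _ _).trans (add_le_add ?_ ?_)
      · refine card_image_le.trans (le_of_eq ?_)
        rw [card_product, card_product, card_range, card_univ]
      · refine card_biUnion_le.trans (sum_le_sum fun i _ => card_image_le.trans (le_of_eq ?_))
        rw [card_product, card_univ]
    exact_mod_cast h3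
  refine h2.trans ?_
  have h4 : ∀ i ∈ range (Nat.log 2 X + 1),
      c * (((hK (M + 2 ^ (i + 1))).1.toFinset.card : ℕ) : ℝ) ≤
        c * (((M : ℝ) + 2) ^ (ε / 2) * (X : ℝ) ^ (ε / 2)) := by
    intro i hi
    have h5 := (hK (M + 2 ^ (i + 1))).2
    rw [Set.ncard_eq_toFinset_card _ (hK (M + 2 ^ (i + 1))).1] at h5
    have h6 : ((M + 2 ^ (i + 1) : ℕ) : ℝ) ≤ ((M : ℝ) + 2) * X := by
      have h7 : 2 ^ i ≤ X := by
        refine (Nat.pow_le_pow_right (by norm_num) (Nat.lt_succ_iff.1 (mem_range.1 hi))).trans ?_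
        exact Nat.pow_log_le_self 2 (by omega)
      have h8 : M + 2 ^ (i + 1) ≤ (M + 2) * X := by
        rw [pow_succ]
        nlinarith
      exact_mod_cast h8
    have h9 : ((M + 2 ^ (i + 1) : ℕ) : ℝ) ^ (ε / 2) ≤
        ((M : ℝ) + 2) ^ (ε / 2) * (X : ℝ) ^ (ε / 2) := by
      rw [← Real.mul_rpow (by positivity) (by positivity)]
      exact Real.rpow_le_rpow (by positivity) h6 (by positivity)
    exact mul_le_mul_of_nonneg_left (h5.trans h9) (Nat.cast_nonneg _)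
  have h5 := sum_le_sum h4
  rw [sum_const, card_range, nsmul_eq_mul] at h5
  push_cast at h5
  have h6 := hlog X hX
  have h7 : (X : ℝ) ^ (ε / 2) * (X : ℝ) ^ (ε / 2) = (X : ℝ) ^ ε := by
    rw [← Real.rpow_add hXpos]
    congr 1
    ring
  have h8 : (1 : ℝ) ≤ (X : ℝ) ^ ε := Real.one_le_rpow hX' hε.le
  have h9 : ((Nat.log 2 X : ℝ) + 1) * (c * (((M : ℝ) + 2) ^ (ε / 2) * (X : ℝ) ^ (ε / 2))) ≤
      c * C1 * ((M : ℝ) + 2) ^ (ε / 2) * (X : ℝ) ^ ε := by
    calc ((Nat.log 2 X : ℝ) + 1) * (c * (((M : ℝ) + 2) ^ (ε / 2) * (X : ℝ) ^ (ε / 2))) ≤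
        (C1 * (X : ℝ) ^ (ε / 2)) * (c * (((M : ℝ) + 2) ^ (ε / 2) * (X : ℝ) ^ (ε / 2))) :=
          mul_le_mul_of_nonneg_right h6 (by positivity)
      _ = c * C1 * ((M : ℝ) + 2) ^ (ε / 2) * ((X : ℝ) ^ (ε / 2) * (X : ℝ) ^ (ε / 2)) := by ring
      _ = _ := by rw [h7]
  have h10 : (0 : ℝ) ≤ 1 + c * (((T : ℝ) + 1) * (T + 1)) := by positivity
  have h11 : (1 + c * (((T : ℝ) + 1) * (T + 1))) ≤
      (1 + c * (((T : ℝ) + 1) * (T + 1))) * (X : ℝ) ^ ε := le_mul_of_one_le_right h10 h8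
  have h12 : (c : ℝ) * (((T : ℝ) + 1) * (T + 1)) ≤
      (1 + c * (((T : ℝ) + 1) * (T + 1))) * (X : ℝ) ^ ε := by linarith
  calc _ ≤ (1 + c * (((T : ℝ) + 1) * (T + 1))) * (X : ℝ) ^ ε +
        c * C1 * ((M : ℝ) + 2) ^ (ε / 2) * (X : ℝ) ^ ε := add_le_add h12 (h5.trans h9)
    _ = _ := by ring

end Pool.Agent.X286.Gn
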