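import Pool.Agent.X286.Gn.Main
import Pool.Agent.X286.Sz.Inf

/-!
# A pole at infinity; classes of curves
-/

set_option autoImplicit false

namespace Pool.Agent.X286.Gn

open Finset Polynomial
open Pool.Agent.X286.Sz (Few aeval_reflect)

theorem atInf {F G : ℤ[X]} (hG : G ≠ 0) (hdeg : G.natDegree < F.natDegree) (r : Fin 2 → ℚ)
    (hr : Function.Injective r) (g0 : ∀ i, aeval (r i) G = 0) (f0 : ∀ i, aeval (r i) F ≠ 0)
    (n A1 E E' : ℕ) {ε : ℝ} (hε : 0 < ε) :
    ∃ (κ : ℕ) (C : ℝ), 0 < C ∧ ∀ X : ℕ, 1 ≤ X →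
      {j : ℚ | (∃ t : ℚ, aeval t G ≠ 0 ∧ j = aeval t F / aeval t G) ∧ Few n j ∧ Bad A1 E E' κ X j}.Finite ∧
      (({j : ℚ | (∃ t : ℚ, aeval t G ≠ 0 ∧ j = aeval t F / aeval t G) ∧
        Few n j ∧ Bad A1 E E' κ X j}.ncard : ℕ) : ℝ) ≤ C * (X : ℝ) ^ ε := by
  obtain ⟨c, hc⟩ : ∃ c : ℤ, (c : ℚ) ≠ r 0 ∧ (c : ℚ) ≠ r 1 := by
    obtain ⟨c, hc⟩ := exists_gt (max ⌈r 0⌉ ⌈r 1⌉)
    refine ⟨c, fun h => ?_, fun h => ?_⟩
    · have h1 : ⌈r 0⌉ = c := by rw [← h]; exact Int.ceil_intCast c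
      have h2 := (le_max_left ⌈r 0⌉ ⌈r 1⌉).trans_lt hc
      omega
    · have h1 : ⌈r 1⌉ = c := by rw [← h]; exact Int.ceil_intCast c
      have h2 := (le_max_right ⌈r 0⌉ ⌈r 1⌉).trans_lt hc
      omega
  set m := F.natDegree with hm
  set F1 := F.comp (X + C c) with hF1
  set G1 := G.comp (X + C c) with hG1
  have dF1 : F1.natDegree = m := by
    rw [hF1, natDegree_comp, natDegree_X_add_C, mul_one]
  have dG1 : G1.natDegree = G.natDegree := by
    rw [hG1, natDegree_comp, natDegree_X_add_C, mul_one]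
  have ev : ∀ (P : ℤ[X]) (x : ℚ), aeval x (P.comp (X + C c)) = aeval (x + c) P := by
    intro P x
    rw [aeval_comp]
    simp
  have eF : ∀ s : ℚ, s ≠ 0 → aeval s (reflect m F1) = s ^ m * aeval (s⁻¹ + c) F := by
    intro s hs
    rw [aeval_reflect dF1.le hs, hF1, ev]
  have eG : ∀ s : ℚ, s ≠ 0 → aeval s (reflect m G1) = s ^ m * aeval (s⁻¹ + c) G := by
    intro s hs
    rw [aeval_reflect (dG1.le.trans hdeg.le) hs, hG1, ev]
  have hF0 : F ≠ 0 := by
    intro h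
    have h1 : m = 0 := by rw [hm, h, natDegree_zero]
    omega
  have ez : ∀ P : ℤ[X], aeval (0 : ℚ) (reflect m P) = P.coeff m := by
    intro P
    rw [aeval_def, eval₂_at_zero, coeff_reflect, revAt_le (Nat.zero_le _), Nat.sub_zero]
    exact eq_intCast (algebraMap ℤ ℚ) _
  have hG'0 : reflect m G1 ≠ 0 := by
    rw [Ne, reflect_eq_zero_iff, hG1, comp_X_add_C_eq_zero_iff]
    exact hG
  have hrc : ∀ i, r i - c ≠ 0 := by
    intro i h
    have h1 : (c : ℚ) = r i := by linarith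
    fin_cases i
    · exact hc.1 h1
    · exact hc.2 h1
  obtain ⟨κ, C0, hC0, h⟩ := affine (F := reflect m F1) (G := reflect m G1) hG'0
    ![0, (r 0 - c)⁻¹, (r 1 - c)⁻¹] (by
      have a1 := inv_ne_zero (hrc 0)
      have a2 := inv_ne_zero (hrc 1)
      have a3 : (r 0 - (c : ℚ))⁻¹ ≠ (r 1 - (c : ℚ))⁻¹ := by
        intro h1
        have h2 := inv_injective h1
        have h3 : r 0 = r 1 := by linarith
        exact absurd (hr h3) (by decide)
      intro i j hij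
      fin_cases i <;> fin_cases j <;> simp_all [eq_comm]) (by
      intro i
      fin_cases i
      · simp only [Fin.zero_eta, Matrix.cons_val_zero]
        rw [ez]
        have : G1.coeff m = 0 := coeff_eq_zero_of_natDegree_lt (by omega)
        rw [this]
        simp
      · simp only [Fin.mk_one, Matrix.cons_val_one, Matrix.cons_val_zero]
        rw [eG _ (inv_ne_zero (hrc 0)), inv_inv, sub_add_cancel, g0 0, mul_zero]
      · simp only [Fin.reduceFinMk, Matrix.cons_val_two, Matrix.tail_cons, Matrix.head_cons]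
        rw [eG _ (inv_ne_zero (hrc 1)), inv_inv, sub_add_cancel, g0 1, mul_zero]) (by
      intro i
      fin_cases i
      · simp only [Fin.zero_eta, Matrix.cons_val_zero]
        rw [ez]
        have h1 : F1.coeff m = F1.leadingCoeff := by rw [leadingCoeff, dF1]
        rw [h1]
        have h2 : F1 ≠ 0 := by
          rw [Ne, hF1, comp_X_add_C_eq_zero_iff]
          exact hF0
        exact_mod_cast leadingCoeff_ne_zero.2 h2
      · simp only [Fin.mk_one, Matrix.cons_val_one, Matrix.cons_val_zero]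
        rw [eF _ (inv_ne_zero (hrc 0)), inv_inv, sub_add_cancel]
        exact mul_ne_zero (pow_ne_zero _ (inv_ne_zero (hrc 0))) (f0 0)
      · simp only [Fin.reduceFinMk, Matrix.cons_val_two, Matrix.tail_cons, Matrix.head_cons]
        rw [eF _ (inv_ne_zero (hrc 1)), inv_inv, sub_add_cancel]
        exact mul_ne_zero (pow_ne_zero _ (inv_ne_zero (hrc 1))) (f0 1)) n A1 E E' hε
  refine ⟨κ, C0 + 1, by positivity, fun X hX => ?_⟩
  obtain ⟨h1, h2⟩ := h X hX
  set S : Set ℚ := {j : ℚ | (∃ t : ℚ, aeval t (reflect m G1) ≠ 0 ∧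
    j = aeval t (reflect m F1) / aeval t (reflect m G1)) ∧ Few n j ∧ Bad A1 E E' κ X j} with hS
  have hsub : {j : ℚ | (∃ t : ℚ, aeval t G ≠ 0 ∧ j = aeval t F / aeval t G) ∧
      Few n j ∧ Bad A1 E E' κ X j} ⊆ insert (aeval (c : ℚ) F / aeval (c : ℚ) G) S := by
    rintro j ⟨⟨t, ht, hj⟩, hrest⟩
    by_cases htc : t = c
    · left
      rw [hj, htc]
    · right
      refine ⟨⟨(t - c)⁻¹, ?_, ?_⟩, hrest⟩
      · rw [eG _ (inv_ne_zero (sub_ne_zero.2 htc)), inv_inv, sub_add_cancel]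
        exact mul_ne_zero (pow_ne_zero _ (inv_ne_zero (sub_ne_zero.2 htc))) ht
      · rw [eG _ (inv_ne_zero (sub_ne_zero.2 htc)), eF _ (inv_ne_zero (sub_ne_zero.2 htc)),
          inv_inv, sub_add_cancel, mul_div_mul_left _ _
          (pow_ne_zero _ (inv_ne_zero (sub_ne_zero.2 htc)))]
        exact hj
  refine ⟨(h1.insert _).subset hsub, ?_⟩
  have h3 := Set.ncard_le_ncard hsub (h1.insert _)
  have h4 := Set.ncard_insert_le (aeval (c : ℚ) F / aeval (c : ℚ) G) S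
  have h5 : (({j : ℚ | (∃ t : ℚ, aeval t G ≠ 0 ∧ j = aeval t F / aeval t G) ∧
      Few n j ∧ Bad A1 E E' κ X j}.ncard : ℕ) : ℝ) ≤ (S.ncard : ℝ) + 1 := by
    exact_mod_cast h3.trans h4
  have hX' : (1 : ℝ) ≤ X := by exact_mod_cast hX
  have h6 : (1 : ℝ) ≤ (X : ℝ) ^ ε := Real.one_le_rpow hX' hε.le
  calc _ ≤ (S.ncard : ℝ) + 1 := h5
    _ ≤ C0 * (X : ℝ) ^ ε + (X : ℝ) ^ ε := add_le_add h2 h6
    _ = _ := by ring

end Pool.Agent.X286.Gn
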